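import Pool.Agent.Q289.KK.Stm
import Pool.Agent.H4R2.AE.Conc

/-!
# Project KK: one-sided Efron-Stein inequality for square integrable functions
-/

set_option autoImplicit false

open scoped BigOperators
open MeasureTheory ProbabilityTheory

namespace Pool.Agent.Q119.KK

open Pool.Agent.H4R2.AE.Conc

section

variable {ι : Type} [Fintype ι] [DecidableEq ι] {μ : Measure ℝ} [IsProbabilityMeasure μ]

/-- Efron-Stein inequality for square integrable functions -/
theorem efron2 (G : (ι → ℝ) → ℝ) (hG : Measurable G) (hL : MemLp G 2 (PP ι μ)) :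
    ∫ ω, G ω ^ 2 ∂(PP ι μ) - (∫ ω, G ω ∂(PP ι μ)) ^ 2 ≤ (1 / 2) * ∑ j, Inf2 μ G j := by
  have gm : ∀ S : Finset ι, Measurable fun θ => G (sel S θ) := fun S => hG.comp (meas_sel S)
  have gL : ∀ S : Finset ι, MemLp (fun θ => G (sel S θ)) 2 (QQ ι μ) := fun S =>
    hL.comp_measurePreserving (mp_sel μ S)
  have ig : ∀ S T : Finset ι, Integrable (fun θ => G (sel S θ) * G (sel T θ)) (QQ ι μ) :=
    fun S T => (gL S).integrable_mul (gL T)
  have main : ∀ S : Finset ι, ∫ θ, (G (sel ∅ θ) * G (sel ∅ θ) - G (sel ∅ θ) * G (sel S θ))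
      ∂(QQ ι μ) ≤ (1 / 2) * ∑ j ∈ S, Inf2 μ G j := by
    intro S
    induction S using Finset.induction_on with
    | empty => simp
    | insert j S hj ih =>
      rw [Finset.sum_insert hj, mul_add]
      have iS : Integrable (fun θ => G (sel ∅ θ) * G (sel ∅ θ) - G (sel ∅ θ) * G (sel S θ))
          (QQ ι μ) := (ig _ _).sub (ig _ _)
      have i1 : Integrable (fun θ => G (sel ∅ θ) * (G (sel S θ) - G (sel (insert j S) θ)))
          (QQ ι μ) := by
        refine ((ig ∅ S).sub (ig ∅ (insert j S))).congr ?_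
        exact Filter.Eventually.of_forall fun θ => by simp only [Pi.sub_apply]; ring
      have e1 : ∫ θ, (G (sel ∅ θ) * G (sel ∅ θ) - G (sel ∅ θ) * G (sel (insert j S) θ)) ∂(QQ ι μ)
          = ∫ θ, (G (sel ∅ θ) * G (sel ∅ θ) - G (sel ∅ θ) * G (sel S θ)) ∂(QQ ι μ) +
            ∫ θ, G (sel ∅ θ) * (G (sel S θ) - G (sel (insert j S) θ)) ∂(QQ ι μ) := by
        rw [← integral_add iS i1]
        apply integral_congr_ae
        exact Filter.Eventually.of_forall fun θ => by ring
      have e2 : ∫ θ, G (sel ∅ θ) * (G (sel S θ) - G (sel (insert j S) θ)) ∂(QQ ι μ) =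
          ∫ θ, G (sel {j} θ) * (G (sel (insert j S) θ) - G (sel S θ)) ∂(QQ ι μ) := by
        rw [← int_mp (mp_sw μ {j})
          (g := fun θ => G (sel ∅ θ) * (G (sel S θ) - G (sel (insert j S) θ)))
          ((gm ∅).mul ((gm S).sub (gm (insert j S))))]
        apply integral_congr_ae
        refine Filter.Eventually.of_forall fun θ => ?_
        simp only [sel_empty_sw, sel_sw_single hj, sel_insert_sw_single hj]
      have i2 : Integrable (fun θ => G (sel {j} θ) * (G (sel (insert j S) θ) - G (sel S θ)))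
          (QQ ι μ) := by
        refine ((ig {j} (insert j S)).sub (ig {j} S)).congr ?_
        exact Filter.Eventually.of_forall fun θ => by simp only [Pi.sub_apply]; ring
      have sqi : ∀ A C : Finset ι, Integrable (fun θ => (G (sel A θ) - G (sel C θ)) ^ 2)
          (QQ ι μ) := by
        intro A C
        refine (((ig A A).sub ((ig A C).const_mul 2)).add (ig C C)).congr ?_
        exact Filter.Eventually.of_forall fun θ => by
          simp only [Pi.sub_apply, Pi.add_apply]; ring
      have e3 : ∫ θ, (G (sel S θ) - G (sel (insert j S) θ)) ^ 2 ∂(QQ ι μ) = Inf2 μ G j := by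
        unfold Inf2
        rw [← int_mp (mp_sw μ S) (g := fun θ => (G (sel ∅ θ) - G (sel {j} θ)) ^ 2)
          (((gm ∅).sub (gm {j})).pow_const 2)]
        apply integral_congr_ae
        refine Filter.Eventually.of_forall fun θ => ?_
        simp only [sel_empty_sw, sel_single_sw hj]
      have e4 : 2 * ∫ θ, G (sel ∅ θ) * (G (sel S θ) - G (sel (insert j S) θ)) ∂(QQ ι μ) ≤
          (1 / 2) * Inf2 μ G j + (1 / 2) * Inf2 μ G j := by
        calc 2 * ∫ θ, G (sel ∅ θ) * (G (sel S θ) - G (sel (insert j S) θ)) ∂(QQ ι μ)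
            = ∫ θ, G (sel ∅ θ) * (G (sel S θ) - G (sel (insert j S) θ)) ∂(QQ ι μ) +
              ∫ θ, G (sel {j} θ) * (G (sel (insert j S) θ) - G (sel S θ)) ∂(QQ ι μ) := by
                rw [← e2]; ring
          _ = ∫ θ, (G (sel ∅ θ) * (G (sel S θ) - G (sel (insert j S) θ)) +
              G (sel {j} θ) * (G (sel (insert j S) θ) - G (sel S θ))) ∂(QQ ι μ) :=
                (integral_add i1 i2).symm
          _ ≤ ∫ θ, ((1 / 2) * (G (sel ∅ θ) - G (sel {j} θ)) ^ 2 +
              (1 / 2) * (G (sel S θ) - G (sel (insert j S) θ)) ^ 2) ∂(QQ ι μ) := by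
                apply integral_mono (i1.add i2) (((sqi _ _).const_mul _).add
                  ((sqi _ _).const_mul _))
                intro θ
                simp only [Pi.add_apply]
                nlinarith [sq_nonneg ((G (sel ∅ θ) - G (sel {j} θ)) -
                  (G (sel S θ) - G (sel (insert j S) θ)))]
          _ = (1 / 2) * Inf2 μ G j + (1 / 2) * Inf2 μ G j := by
                rw [integral_add ((sqi _ _).const_mul _) ((sqi _ _).const_mul _),
                  integral_const_mul, integral_const_mul, e3]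
                rfl
      rw [e1]
      linarith
  have h1 := main Finset.univ
  have h2 : ∫ θ, (G (sel ∅ θ) * G (sel ∅ θ) - G (sel ∅ θ) * G (sel Finset.univ θ)) ∂(QQ ι μ) =
      ∫ ω, G ω ^ 2 ∂(PP ι μ) - (∫ ω, G ω ∂(PP ι μ)) ^ 2 := by
    rw [integral_sub (ig _ _) (ig _ _), indep μ G G hG hG, sq (∫ ω, G ω ∂(PP ι μ))]
    congr 1
    rw [← int_mp (mp_sel μ ∅) (g := fun ω => G ω ^ 2) (hG.pow_const 2)]
    apply integral_congr_ae
    exact Filter.Eventually.of_forall fun θ => by ring
  rw [h2] at h1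
  exact h1

/-- the pair `(z, t)` of a point and a new value of the coordinate `j` -/
theorem mp_pair (j : ι) : MeasurePreserving
    (fun θ : ι → ℝ × ℝ => ((sel ∅ θ, (θ j).2) : (ι → ℝ) × ℝ)) (QQ ι μ) ((PP ι μ).prod μ) := by
  have h1 := measurePreserving_arrowProdEquivProdArrow ℝ ℝ ι (fun _ => μ) (fun _ => μ)
  have h2 : MeasurePreserving (Prod.map id (Function.eval j) : (ι → ℝ) × (ι → ℝ) → (ι → ℝ) × ℝ)
      ((PP ι μ).prod (PP ι μ)) ((PP ι μ).prod μ) :=
    (MeasurePreserving.id _).prod (measurePreserving_eval (fun _ : ι => μ) j)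
  have h3 := h2.comp h1
  convert h3 using 1
  rfl

theorem one_sided (G : (ι → ℝ) → ℝ) (hG : Measurable G) (hL : MemLp G 2 (PP ι μ)) (j : ι) :
    (1 / 2) * Inf2 μ G j =
      ∫ z, ∫ t, (max (G z - G (Function.update z j t)) 0) ^ 2 ∂μ ∂(PP ι μ) := by
  have gm : ∀ S : Finset ι, Measurable fun θ => G (sel S θ) := fun S => hG.comp (meas_sel S)
  have gL : ∀ S : Finset ι, MemLp (fun θ => G (sel S θ)) 2 (QQ ι μ) := fun S =>
    hL.comp_measurePreserving (mp_sel μ S)
  have hD : MemLp (fun θ => G (sel ∅ θ) - G (sel {j} θ)) 2 (QQ ι μ) := (gL ∅).sub (gL {j})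
  have hmP : Measurable fun θ : ι → ℝ × ℝ => (max (G (sel ∅ θ) - G (sel {j} θ)) 0) ^ 2 :=
    (((gm ∅).sub (gm {j})).max measurable_const).pow_const 2
  have hmN : Measurable fun θ : ι → ℝ × ℝ => (max (G (sel {j} θ) - G (sel ∅ θ)) 0) ^ 2 :=
    (((gm {j}).sub (gm ∅)).max measurable_const).pow_const 2
  have hiP : Integrable (fun θ => (max (G (sel ∅ θ) - G (sel {j} θ)) 0) ^ 2) (QQ ι μ) := by
    refine hD.integrable_sq.mono' hmP.aestronglyMeasurable ?_
    refine Filter.Eventually.of_forall fun θ => ?_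
    rw [Real.norm_of_nonneg (sq_nonneg _)]
    rcases le_total (G (sel ∅ θ) - G (sel {j} θ)) 0 with h | h
    · rw [max_eq_right h]; nlinarith [sq_nonneg (G (sel ∅ θ) - G (sel {j} θ))]
    · rw [max_eq_left h]
  have hiN : Integrable (fun θ => (max (G (sel {j} θ) - G (sel ∅ θ)) 0) ^ 2) (QQ ι μ) := by
    refine hD.integrable_sq.mono' hmN.aestronglyMeasurable ?_
    refine Filter.Eventually.of_forall fun θ => ?_
    rw [Real.norm_of_nonneg (sq_nonneg _)]
    rcases le_total (G (sel {j} θ) - G (sel ∅ θ)) 0 with h | h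
    · rw [max_eq_right h]; nlinarith [sq_nonneg (G (sel ∅ θ) - G (sel {j} θ))]
    · rw [max_eq_left h]; nlinarith
  have hsym : ∫ θ, (max (G (sel {j} θ) - G (sel ∅ θ)) 0) ^ 2 ∂(QQ ι μ) =
      ∫ θ, (max (G (sel ∅ θ) - G (sel {j} θ)) 0) ^ 2 ∂(QQ ι μ) := by
    rw [← int_mp (mp_sw μ {j}) hmP]
    apply integral_congr_ae
    refine Filter.Eventually.of_forall fun θ => ?_
    have e1 : sel ∅ (sw {j} θ) = sel {j} θ := sel_empty_sw _ _
    have e2 : sel {j} (sw {j} θ) = sel ∅ θ := by
      have := sel_insert_sw_single (S := ∅) (j := j) (Finset.notMem_empty _) θ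
      simpa using this
    simp only [e1, e2]
  have h1 : Inf2 μ G j = 2 * ∫ θ, (max (G (sel ∅ θ) - G (sel {j} θ)) 0) ^ 2 ∂(QQ ι μ) := by
    rw [two_mul]
    nth_rw 2 [← hsym]
    rw [← integral_add hiP hiN]
    unfold Inf2
    apply integral_congr_ae
    refine Filter.Eventually.of_forall fun θ => ?_
    simp only
    rcases le_total (G (sel ∅ θ) - G (sel {j} θ)) 0 with h | h
    · rw [max_eq_right h, max_eq_left (by linarith)]; ring
    · rw [max_eq_left h, max_eq_right (by linarith)]; ring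
  rw [h1]
  have hsel : ∀ θ : ι → ℝ × ℝ, sel {j} θ = Function.update (sel ∅ θ) j (θ j).2 := by
    intro θ
    rw [sel_single]
    simp [sel]
  let h : (ι → ℝ) × ℝ → ℝ := fun p => (max (G p.1 - G (Function.update p.1 j p.2)) 0) ^ 2
  have hup : Measurable fun p : (ι → ℝ) × ℝ => Function.update p.1 j p.2 := by
    apply measurable_pi_lambda
    intro i
    by_cases hi : i = j
    · subst hi
      simp only [Function.update_self]
      exact measurable_snd
    · simp only [Function.update_of_ne hi]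
      exact (measurable_pi_apply i).comp measurable_fst
  have hmh : Measurable h :=
    (((hG.comp measurable_fst).sub (hG.comp hup)).max measurable_const).pow_const 2
  have e3 : ∫ θ, (max (G (sel ∅ θ) - G (sel {j} θ)) 0) ^ 2 ∂(QQ ι μ) =
      ∫ p, h p ∂((PP ι μ).prod μ) := by
    rw [← int_mp (mp_pair (μ := μ) j) hmh]
    apply integral_congr_ae
    refine Filter.Eventually.of_forall fun θ => ?_
    simp only [hsel, h]
  have hih : Integrable h ((PP ι μ).prod μ) := by
    rw [← (mp_pair (μ := μ) j).integrable_comp hmh.aestronglyMeasurable]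
    refine hiP.congr ?_
    refine Filter.Eventually.of_forall fun θ => ?_
    simp only [hsel, h, Function.comp]
  rw [e3, integral_prod _ hih]
  simp only [h]
  ring

end

theorem es0 (ι : Type) [Fintype ι] [DecidableEq ι] (f : (ι → ℝ) → ℝ) (hf : Continuous f)
    (hL : MemLp f 2 (Measure.pi fun _ : ι => gaussianReal 0 1)) :
    ∫ z, (f z - ∫ y, f y ∂(Measure.pi fun _ : ι => gaussianReal 0 1)) ^ 2
      ∂(Measure.pi fun _ : ι => gaussianReal 0 1) ≤
    ∑ i, ∫ z, ∫ t, (max (f z - f (Function.update z i t)) 0) ^ 2 ∂(gaussianReal 0 1)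
      ∂(Measure.pi fun _ : ι => gaussianReal 0 1) := by
  have h1 := efron2 (μ := gaussianReal 0 1) f hf.measurable hL
  rw [Finset.mul_sum, Finset.sum_congr rfl fun j _ => one_sided f hf.measurable hL j] at h1
  refine le_trans (le_of_eq ?_) h1
  have hi : Integrable f (PP ι (gaussianReal 0 1)) := hL.integrable (by norm_num)
  have hi2 : Integrable (fun z => f z ^ 2) (PP ι (gaussianReal 0 1)) := hL.integrable_sq
  set c := ∫ y, f y ∂(PP ι (gaussianReal 0 1)) with hc
  have e : ∀ z, (f z - c) ^ 2 = f z ^ 2 - (2 * c) * f z + c ^ 2 := fun z => by ring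
  change ∫ z, (f z - c) ^ 2 ∂(PP ι (gaussianReal 0 1)) = _
  simp_rw [e]
  have hi3 : Integrable (fun z => (2 * c) * f z) (PP ι (gaussianReal 0 1)) := hi.const_mul _
  have e4 : ∫ z, (f z ^ 2 - (2 * c) * f z + c ^ 2) ∂(PP ι (gaussianReal 0 1)) =
      ∫ z, (f z ^ 2 - (2 * c) * f z) ∂(PP ι (gaussianReal 0 1)) +
        ∫ _, c ^ 2 ∂(PP ι (gaussianReal 0 1)) :=
    integral_add (hi2.sub hi3) (integrable_const _)
  have e5 : ∫ z, (f z ^ 2 - (2 * c) * f z) ∂(PP ι (gaussianReal 0 1)) =
      ∫ z, f z ^ 2 ∂(PP ι (gaussianReal 0 1)) - ∫ z, (2 * c) * f z ∂(PP ι (gaussianReal 0 1)) :=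
    integral_sub hi2 hi3
  rw [e4, e5, integral_const_mul, ← hc]
  simp
  ring

theorem es : Q289.KK.EsStm := fun ι _ _ f hf hL _ => es0 ι f hf hL

end Pool.Agent.Q119.KK
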