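import Pool.Agent.Q119.KK.Es
import Pool.Agent.Q166.KK.Rho

/-!
# Project KK: variance of the top eigenvalue for `r = 2`
-/

set_option autoImplicit false

open scoped BigOperators
open MeasureTheory ProbabilityTheory Q289.KK

namespace Pool.Agent.Q119.KK

/-- the top eigenvalue is attained -/
theorem lmax_att {ι : Type} [Fintype ι] [Nonempty ι] (M : Matrix ι ι ℝ) :
    ∃ u : ι → ℝ, dotProduct u u = 1 ∧ lmax M = dotProduct u (M.mulVec u) ∧
      ∀ v : ι → ℝ, dotProduct v v = 1 → dotProduct v (M.mulVec v) ≤ lmax M := by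
  classical
  let K : Set (ι → ℝ) := {v | dotProduct v v = 1}
  have hcd : Continuous fun v : ι → ℝ => dotProduct v v := by
    unfold dotProduct; fun_prop
  have hcM : Continuous fun v : ι → ℝ => dotProduct v (M.mulVec v) := by
    unfold dotProduct Matrix.mulVec dotProduct; fun_prop
  have hK : IsCompact K := by
    apply Metric.isCompact_of_isClosed_isBounded
    · exact isClosed_eq hcd continuous_const
    · rw [Metric.isBounded_iff_subset_closedBall 0]
      refine ⟨1, fun v hv => ?_⟩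
      rw [mem_closedBall_zero_iff, pi_norm_le_iff_of_nonneg zero_le_one]
      intro i
      have hv' : ∑ j, v j * v j = 1 := hv
      have h1 : v i * v i ≤ 1 := by
        rw [← hv']
        exact Finset.single_le_sum (f := fun j => v j * v j) (fun j _ => mul_self_nonneg _)
          (Finset.mem_univ i)
      rw [Real.norm_eq_abs]
      exact abs_le_one_iff_mul_self_le_one.2 h1
  have hne : K.Nonempty := by
    obtain ⟨i⟩ := ‹Nonempty ι›
    exact ⟨Pi.single i 1, by simp [K]⟩
  obtain ⟨u, hu, h1, h2⟩ := hK.exists_sSup_image_eq_and_ge hne hcM.continuousOn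
  have hset : {t : ℝ | ∃ v : ι → ℝ, dotProduct v v = 1 ∧ t = dotProduct v (M.mulVec v)} =
      (fun v : ι → ℝ => dotProduct v (M.mulVec v)) '' K := by
    ext t
    constructor
    · rintro ⟨v, hv, rfl⟩; exact ⟨v, hv, rfl⟩
    · rintro ⟨v, hv, rfl⟩; exact ⟨v, hv, rfl⟩
  have h3 : lmax M = dotProduct u (M.mulVec u) := by
    unfold lmax; rw [hset, h1]
  exact ⟨u, hu, h3, fun v hv => by rw [h3]; exact h2 v hv⟩

/-- the coefficient of the weight `S` in the quadratic form of `u` -/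
noncomputable def rh {n ℓ : ℕ} (u : Sb n ℓ → ℝ) (S : Finset (Fin n)) : ℝ :=
  if S.card = 2 then ∑ I : Sb n ℓ, ∑ J : Sb n ℓ, (if symmDiff I.1 J.1 = S then u I * u J else 0)
  else 0

theorem form_diff {n ℓ : ℕ} (u : Sb n ℓ → ℝ) (Z : Finset (Fin n) → ℝ) (S : Finset (Fin n))
    (t : ℝ) :
    dotProduct u ((W 2 ℓ 0 Z).mulVec u) -
      dotProduct u ((W 2 ℓ 0 (Function.update Z S t)).mulVec u) = rh u S * (Z S - t) := by
  unfold dotProduct Matrix.mulVec dotProduct rh
  simp only [Finset.mul_sum, ← Finset.sum_sub_distrib]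
  split_ifs with h
  · rw [Finset.sum_mul]
    apply Finset.sum_congr rfl
    intro I _
    rw [Finset.sum_mul]
    apply Finset.sum_congr rfl
    intro J _
    unfold W
    simp only [Matrix.of_apply]
    by_cases h1 : symmDiff I.1 J.1 = S
    · rw [h1, if_pos h, if_pos h, if_pos rfl, Function.update_self]
      ring
    · rw [if_neg h1, Function.update_of_ne h1]
      ring
  · rw [zero_mul]
    apply Finset.sum_eq_zero
    intro I _
    apply Finset.sum_eq_zero
    intro J _
    unfold W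
    simp only [Matrix.of_apply]
    by_cases h1 : symmDiff I.1 J.1 = S
    · rw [h1, if_neg h, if_neg h]
      ring
    · rw [Function.update_of_ne h1]
      ring

theorem nonempty_Sb {n ℓ : ℕ} (h : ℓ ≤ n) : Nonempty (Sb n ℓ) := by
  obtain ⟨K, _, hK⟩ := Finset.exists_subset_card_eq (s := (Finset.univ : Finset (Fin n)))
    (n := ℓ) (by simpa using h)
  exact ⟨⟨K, hK⟩⟩

/-- one-sided bound of the influences -/
theorem infl {n ℓ : ℕ} (h : ℓ ≤ n) (Z : Finset (Fin n) → ℝ) :
    ∃ r : Finset (Fin n) → ℝ, (∀ S, S.card ≠ 2 → r S = 0) ∧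
      ∑ S ∈ Finset.univ.filter (fun S : Finset (Fin n) => S.card = 2), r S ^ 2 ≤ 2 * (ℓ : ℝ) ^ 2 ∧
      ∀ (S : Finset (Fin n)) (t : ℝ),
        (max (lmax (W 2 ℓ 0 Z) - lmax (W 2 ℓ 0 (Function.update Z S t))) 0) ^ 2 ≤
          r S ^ 2 * (Z S - t) ^ 2 := by
  have := nonempty_Sb h
  obtain ⟨u, hu, h1, _⟩ := lmax_att (W 2 ℓ 0 Z)
  refine ⟨rh u, fun S hS => by rw [rh, if_neg hS], ?_, ?_⟩
  · have h2 := Pool.Agent.Q166.KK.rho n ℓ u (by
      rw [← hu]; unfold dotProduct; exact Finset.sum_congr rfl fun I _ => sq _)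
    refine le_trans (le_of_eq ?_) h2
    apply Finset.sum_congr rfl
    intro S hS
    rw [rh, if_pos (Finset.mem_filter.1 hS).2]
  · intro S t
    obtain ⟨_, _, _, h3⟩ := lmax_att (W 2 ℓ 0 (Function.update Z S t))
    have h4 := h3 u hu
    have h5 := form_diff u Z S t
    have h6 : lmax (W 2 ℓ 0 Z) - lmax (W 2 ℓ 0 (Function.update Z S t)) ≤ rh u S * (Z S - t) := by
      rw [h1, ← h5]; linarith
    rw [← mul_pow]
    rcases le_total (lmax (W 2 ℓ 0 Z) - lmax (W 2 ℓ 0 (Function.update Z S t))) 0 with h7 | h7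
    · rw [max_eq_right h7]; simpa using sq_nonneg _
    · rw [max_eq_left h7]
      exact pow_le_pow_left₀ h7 h6 2

/-- continuity of the top eigenvalue, from the Lipschitz bound -/
theorem cont (hI : IntStm) (n ℓ : ℕ) : Continuous fun Z => lmax (W (n := n) 2 ℓ 0 Z) := by
  rw [continuous_iff_continuousAt]
  intro Z0
  rw [ContinuousAt, tendsto_iff_dist_tendsto_zero]
  have hc : Continuous fun Z : Finset (Fin n) → ℝ =>
      ∑ I : Sb n ℓ, ∑ J : Sb n ℓ, |W 2 ℓ 0 Z I J - W 2 ℓ 0 Z0 I J| := by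
    refine continuous_finsetSum _ fun I _ => continuous_finsetSum _ fun J _ => ?_
    refine continuous_abs.comp (Continuous.sub ?_ continuous_const)
    unfold W
    simp only [Matrix.of_apply]
    split_ifs
    · fun_prop
    · fun_prop
  have h0 := hc.tendsto Z0
  simp only [sub_self, abs_zero, Finset.sum_const_zero] at h0
  refine squeeze_zero (fun _ => dist_nonneg) (fun Z => ?_) h0
  rw [Real.dist_eq]
  exact hI.1 _ _ _

/-- the squared distance to a point -/
theorem int_sq (x : ℝ) : ∫ t, (x - t) ^ 2 ∂(gaussianReal 0 1) ≤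
    2 * x ^ 2 + 2 * ∫ t, t ^ 2 ∂(gaussianReal 0 1) := by
  have h2 : Integrable (fun t : ℝ => t ^ 2) (gaussianReal 0 1) :=
    (memLp_id_gaussianReal 2).integrable_sq
  have h1 : ∫ t, (x - t) ^ 2 ∂(gaussianReal 0 1) ≤
      ∫ t, (2 * x ^ 2 + 2 * t ^ 2) ∂(gaussianReal 0 1) := by
    apply integral_mono_of_nonneg (Filter.Eventually.of_forall fun t => sq_nonneg _)
      ((integrable_const _).add (h2.const_mul 2))
    exact Filter.Eventually.of_forall fun t => by
      have : (x - t) ^ 2 ≤ 2 * x ^ 2 + 2 * t ^ 2 := by nlinarith [sq_nonneg (x + t)]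
      exact this
  rw [integral_add (integrable_const _) (h2.const_mul 2), integral_const] at h1
  simp only [probReal_univ, one_smul] at h1
  rw [← integral_const_mul]
  exact h1

theorem int_8 : Integrable (fun t : ℝ => t ^ 8) (gaussianReal 0 1) := by
  have h := (memLp_id_gaussianReal (μ := 0) (v := 1) 8).integrable_norm_pow (by norm_num)
  refine h.congr (Filter.Eventually.of_forall fun t => ?_)
  simp only [id, Real.norm_eq_abs]
  exact Even.pow_abs (by decide) t

theorem var (hI : IntStm) : VarStm := by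
  set M2 := ∫ t, t ^ 2 ∂(gaussianReal 0 1) with hM2
  set M8 := ∫ t, t ^ 8 ∂(gaussianReal 0 1) with hM8
  have hM2' : 0 ≤ M2 := integral_nonneg fun t => sq_nonneg t
  have hM8' : 0 ≤ M8 := integral_nonneg fun t => by positivity
  refine ⟨4 * (1 + M8 + M2), by positivity, ?_⟩
  intro n ℓ hn hℓ hℓn
  set f : (Finset (Fin n) → ℝ) → ℝ := fun Z => lmax (W 2 ℓ 0 Z) with hf
  have hcf : Continuous f := cont hI n ℓ
  have hLf : MemLp f 2 (G n) := by
    have := hI.2 n 2 ℓ 0 2
    exact_mod_cast this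
  have h1 := es0 (Finset (Fin n)) f hcf hLf
  refine h1.trans ?_
  -- the bound
  set sn : ℝ := √n with hsn
  have hsn1 : 1 ≤ sn := by
    rw [hsn, Real.one_le_sqrt]; exact_mod_cast hn
  have hsn2 : sn ^ 2 = n := Real.sq_sqrt (Nat.cast_nonneg n)
  set P2 := Finset.univ.filter (fun S : Finset (Fin n) => S.card = 2) with hP2
  let bd : (Finset (Fin n) → ℝ) → ℝ := fun Z =>
    2 * (ℓ : ℝ) ^ 2 * (2 * (sn + ∑ S ∈ P2, Z S ^ 8 / sn ^ 3) + 2 * M2)
  let F : Finset (Fin n) → (Finset (Fin n) → ℝ) → ℝ := fun S Z =>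
    ∫ t, (max (f Z - f (Function.update Z S t)) 0) ^ 2 ∂(gaussianReal 0 1)
  have hF0 : ∀ S Z, 0 ≤ F S Z := fun S Z => integral_nonneg fun t => sq_nonneg _
  -- pointwise bound
  have hpt : ∀ Z, ∑ S, F S Z ≤ bd Z := by
    intro Z
    obtain ⟨r, hr0, hr2, hr⟩ := infl hℓn Z
    have hFS : ∀ S, F S Z ≤ r S ^ 2 * (2 * Z S ^ 2 + 2 * M2) := by
      intro S
      have hi : Integrable (fun t : ℝ => r S ^ 2 * (Z S - t) ^ 2) (gaussianReal 0 1) := by
        apply Integrable.const_mul
        have h2 : MemLp (fun t : ℝ => Z S - t) 2 (gaussianReal 0 1) :=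
          (memLp_const _).sub (memLp_id_gaussianReal 2)
        exact h2.integrable_sq
      have h2 : F S Z ≤ ∫ t, r S ^ 2 * (Z S - t) ^ 2 ∂(gaussianReal 0 1) :=
        integral_mono_of_nonneg (Filter.Eventually.of_forall fun t => sq_nonneg _) hi
          (Filter.Eventually.of_forall fun t => hr S t)
      rw [integral_const_mul] at h2
      exact h2.trans (mul_le_mul_of_nonneg_left (int_sq _) (sq_nonneg _))
    have hthr : ∀ x : ℝ, x ^ 2 ≤ sn + x ^ 8 / sn ^ 3 := by
      intro x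
      have hs0 : 0 < sn := by linarith
      rcases le_total (x ^ 2) sn with h | h
      · have : 0 ≤ x ^ 8 / sn ^ 3 := by positivity
        linarith
      · have h3 : sn ^ 3 ≤ (x ^ 2) ^ 3 := pow_le_pow_left₀ hs0.le h 3
        have h4 : x ^ 2 ≤ x ^ 8 / sn ^ 3 := by
          rw [le_div_iff₀ (by positivity)]
          calc x ^ 2 * sn ^ 3 ≤ x ^ 2 * (x ^ 2) ^ 3 := by gcongr
            _ = x ^ 8 := by ring
        linarith
    have hmax : ∀ S ∈ P2, Z S ^ 2 ≤ sn + ∑ S ∈ P2, Z S ^ 8 / sn ^ 3 := by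
      intro S hS
      have h3 : Z S ^ 8 / sn ^ 3 ≤ ∑ S ∈ P2, Z S ^ 8 / sn ^ 3 :=
        Finset.single_le_sum (f := fun S => Z S ^ 8 / sn ^ 3) (fun S _ => by positivity) hS
      linarith [hthr (Z S)]
    calc ∑ S, F S Z ≤ ∑ S, r S ^ 2 * (2 * Z S ^ 2 + 2 * M2) := Finset.sum_le_sum fun S _ => hFS S
      _ = ∑ S ∈ P2, r S ^ 2 * (2 * Z S ^ 2 + 2 * M2) := by
          symm
          apply Finset.sum_subset (Finset.filter_subset _ _)
          intro S _ hS
          have : S.card ≠ 2 := fun h => hS (Finset.mem_filter.2 ⟨Finset.mem_univ _, h⟩)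
          rw [hr0 S this]; ring
      _ ≤ ∑ S ∈ P2, r S ^ 2 * (2 * (sn + ∑ S ∈ P2, Z S ^ 8 / sn ^ 3) + 2 * M2) := by
          apply Finset.sum_le_sum
          intro S hS
          have := hmax S hS
          gcongr
      _ = (∑ S ∈ P2, r S ^ 2) * (2 * (sn + ∑ S ∈ P2, Z S ^ 8 / sn ^ 3) + 2 * M2) := by
          rw [Finset.sum_mul]
      _ ≤ bd Z := by
          apply mul_le_mul_of_nonneg_right hr2
          have : 0 ≤ ∑ S ∈ P2, Z S ^ 8 / sn ^ 3 := Finset.sum_nonneg fun S _ => by positivity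
          positivity
  -- integrability
  have hi8 : ∀ S : Finset (Fin n), Integrable (fun Z : Finset (Fin n) → ℝ => Z S ^ 8) (G n) := by
    intro S
    have h2 := (measurePreserving_eval (fun _ : Finset (Fin n) => gaussianReal 0 1) S)
    exact h2.integrable_comp_of_integrable int_8
  have hv8 : ∀ S : Finset (Fin n), ∫ Z, Z S ^ 8 ∂(G n) = M8 := by
    intro S
    have h2 := (measurePreserving_eval (fun _ : Finset (Fin n) => gaussianReal 0 1) S)
    exact Pool.Agent.H4R2.AE.Conc.int_mp h2 (g := fun t : ℝ => t ^ 8) (by fun_prop)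
  have hsum8 : Integrable (fun Z : Finset (Fin n) → ℝ => ∑ S ∈ P2, Z S ^ 8 / sn ^ 3) (G n) :=
    integrable_finsetSum _ fun S _ => (hi8 S).div_const _
  have hbd : Integrable bd (G n) :=
    ((((integrable_const sn).add hsum8).const_mul 2).add (integrable_const (2 * M2))).const_mul _
  have hup : ∀ S : Finset (Fin n), Continuous fun p : (Finset (Fin n) → ℝ) × ℝ =>
      Function.update p.1 S p.2 := by
    intro S
    exact continuous_fst.update S continuous_snd
  have hFm : ∀ S, AEStronglyMeasurable (F S) (G n) := by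
    intro S
    have hc2 : Continuous fun p : (Finset (Fin n) → ℝ) × ℝ =>
        (max (f p.1 - f (Function.update p.1 S p.2)) 0) ^ 2 :=
      (((hcf.comp continuous_fst).sub (hcf.comp (hup S))).max continuous_const).pow 2
    exact (hc2.stronglyMeasurable.integral_prod_right (ν := gaussianReal 0 1)).aestronglyMeasurable
  have hFi : ∀ S, Integrable (F S) (G n) := by
    intro S
    refine hbd.mono' (hFm S) (Filter.Eventually.of_forall fun Z => ?_)
    rw [Real.norm_of_nonneg (hF0 S Z)]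
    exact (Finset.single_le_sum (f := fun S => F S Z) (fun S _ => hF0 S Z)
      (Finset.mem_univ S)).trans (hpt Z)
  have h2 : ∑ S, ∫ Z, F S Z ∂(G n) ≤ ∫ Z, bd Z ∂(G n) := by
    rw [← integral_finsetSum _ fun S _ => hFi S]
    exact integral_mono (integrable_finsetSum _ fun S _ => hFi S) hbd hpt
  refine h2.trans ?_
  have h3 : ∫ Z, bd Z ∂(G n) =
      2 * (ℓ : ℝ) ^ 2 * (2 * (sn + P2.card * (M8 / sn ^ 3)) + 2 * M2) := by
    simp only [bd]
    rw [integral_const_mul]
    have e1 : ∫ Z, (2 * (sn + ∑ S ∈ P2, Z S ^ 8 / sn ^ 3) + 2 * M2) ∂(G n) =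
        ∫ Z, 2 * (sn + ∑ S ∈ P2, Z S ^ 8 / sn ^ 3) ∂(G n) + ∫ _, 2 * M2 ∂(G n) :=
      integral_add (((integrable_const sn).add hsum8).const_mul 2) (integrable_const (2 * M2))
    have e2 : ∫ Z, (sn + ∑ S ∈ P2, Z S ^ 8 / sn ^ 3) ∂(G n) =
        ∫ _, sn ∂(G n) + ∫ Z, ∑ S ∈ P2, Z S ^ 8 / sn ^ 3 ∂(G n) :=
      integral_add (integrable_const sn) hsum8
    have e3 : ∫ Z, ∑ S ∈ P2, Z S ^ 8 / sn ^ 3 ∂(G n) = P2.card * (M8 / sn ^ 3) := by
      rw [integral_finsetSum _ fun S _ => (hi8 S).div_const _]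
      simp_rw [integral_div, hv8]
      rw [Finset.sum_const, nsmul_eq_mul]
    rw [e1, integral_const_mul, e2, e3, integral_const, integral_const]
    simp only [probReal_univ, one_smul]
  rw [h3]
  have hcard : (P2.card : ℝ) ≤ sn ^ 4 := by
    have h4 : P2.card = n.choose 2 := by
      have : P2 = Finset.powersetCard 2 (Finset.univ : Finset (Fin n)) := by
        ext S; simp [hP2, Finset.mem_powersetCard]
      rw [this, Finset.card_powersetCard, Finset.card_univ, Fintype.card_fin]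
    have h5 : n.choose 2 ≤ n ^ 2 := Nat.choose_le_pow n 2
    have h6 : sn ^ 4 = (n : ℝ) ^ 2 := by rw [← hsn2]; ring
    rw [h4, h6]
    exact_mod_cast h5
  have h7 : (P2.card : ℝ) * (M8 / sn ^ 3) ≤ sn * M8 := by
    calc (P2.card : ℝ) * (M8 / sn ^ 3) ≤ sn ^ 4 * (M8 / sn ^ 3) := by gcongr
      _ = sn * M8 := by field_simp
  calc 2 * (ℓ : ℝ) ^ 2 * (2 * (sn + P2.card * (M8 / sn ^ 3)) + 2 * M2)
      ≤ 2 * (ℓ : ℝ) ^ 2 * (2 * (sn + sn * M8) + 2 * (sn * M2)) := by
        have : M2 ≤ sn * M2 := le_mul_of_one_le_left hM2' hsn1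
        gcongr
    _ = 4 * (1 + M8 + M2) * (ℓ : ℝ) ^ 2 * sn := by ring

end Pool.Agent.Q119.KK
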